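import Pool.Agent.H28.PL.DefsJ

/-!
# The ratio modulo `AA c m` (row JK of plp_modules)
-/

set_option autoImplicit false

open Finset

namespace Pool.Agent.H68.PL

open Pool.Agent.H28.PL

theorem jk_al_sq : al ^ 2 = 2 * al + 1 ∧ be ^ 2 = 2 * be + 1 ∧ al * be = -1 := by
  have h2 : Real.sqrt 2 ^ 2 = 2 := Real.sq_sqrt (by norm_num)
  unfold al be
  refine ⟨?_, ?_, ?_⟩ <;> nlinarith

theorem jk_bin (n : ℕ) : 2 * Real.sqrt 2 * (pe n : ℝ) = al ^ n - be ^ n ∧
    (ve n : ℝ) = al ^ n + be ^ n := by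
  obtain ⟨ha, hb, -⟩ := jk_al_sq
  have h : ∀ n, (2 * Real.sqrt 2 * (pe n : ℝ) = al ^ n - be ^ n ∧
      (ve n : ℝ) = al ^ n + be ^ n) ∧
      (2 * Real.sqrt 2 * (pe (n + 1) : ℝ) = al ^ (n + 1) - be ^ (n + 1) ∧
      (ve (n + 1) : ℝ) = al ^ (n + 1) + be ^ (n + 1)) := by
    intro n
    induction n with
    | zero =>
      have p0 : pe 0 = 0 := rfl
      have p1 : pe (0 + 1) = 1 := rfl
      have v0 : ve 0 = 2 := rfl
      have v1 : ve (0 + 1) = 2 := rfl
      rw [p0, p1, v0, v1]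
      unfold al be
      push_cast
      refine ⟨⟨?_, ?_⟩, ?_, ?_⟩ <;> ring
    | succ n ih =>
      refine ⟨ih.2, ?_⟩
      obtain ⟨⟨i1, i2⟩, i3, i4⟩ := ih
      have p : pe (n + 1 + 1) = 2 * pe (n + 1) + pe n := rfl
      have v : ve (n + 1 + 1) = 2 * ve (n + 1) + ve n := rfl
      rw [p, v]
      push_cast
      have ea : al ^ (n + 1 + 1) = 2 * al ^ (n + 1) + al ^ n := by
        have : al ^ (n + 1 + 1) = al ^ n * al ^ 2 := by ring
        rw [this, ha]
        ring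
      have eb : be ^ (n + 1 + 1) = 2 * be ^ (n + 1) + be ^ n := by
        have : be ^ (n + 1 + 1) = be ^ n * be ^ 2 := by ring
        rw [this, hb]
        ring
      rw [ea, eb]
      constructor
      · linear_combination 2 * i3 + i1
      · linear_combination 2 * i4 + i2
  exact (h n).1

/-- the sequence of the ratios at odd places -/
def sq (T ε : ℤ) : ℕ → ℤ
  | 0 => 1
  | 1 => T + ε
  | n + 2 => T * sq T ε (n + 1) - sq T ε n

theorem sq_real (x y : ℝ) (T ε : ℤ) (hT : (T : ℝ) = x ^ 2 + y ^ 2) (hε : (ε : ℝ) = x * y)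
    (h1 : (x * y) ^ 2 = 1) (j : ℕ) :
    x ^ (2 * j + 1) - y ^ (2 * j + 1) = (sq T ε j : ℝ) * (x - y) := by
  have h : ∀ j : ℕ, x ^ (2 * j + 1) - y ^ (2 * j + 1) = (sq T ε j : ℝ) * (x - y) ∧
      x ^ (2 * (j + 1) + 1) - y ^ (2 * (j + 1) + 1) = (sq T ε (j + 1) : ℝ) * (x - y) := by
    intro j
    induction j with
    | zero =>
      have s0 : sq T ε 0 = 1 := rfl
      have s1 : sq T ε (0 + 1) = T + ε := rfl
      rw [s0, s1]
      push_cast
      rw [hT, hε]
      constructor <;> ring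
    | succ j ih =>
      refine ⟨ih.2, ?_⟩
      have s : sq T ε (j + 1 + 1) = T * sq T ε (j + 1) - sq T ε j := rfl
      rw [s]
      push_cast
      rw [hT]
      have e : x ^ (2 * (j + 1 + 1) + 1) - y ^ (2 * (j + 1 + 1) + 1) =
          (x ^ 2 + y ^ 2) * (x ^ (2 * (j + 1) + 1) - y ^ (2 * (j + 1) + 1)) -
          (x * y) ^ 2 * (x ^ (2 * j + 1) - y ^ (2 * j + 1)) := by ring
      rw [e, h1, ih.1, ih.2]
      ring
  exact (h j).1

theorem sq_mod (D T ε : ℤ) (hε : ε = 1 ∨ ε = -1) (hT : D ∣ T - 2 * ε) (j : ℕ) :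
    D ∣ sq T ε j - ε ^ j * (2 * j + 1) := by
  have he2 : ε ^ 2 = 1 := by
    rcases hε with rfl | rfl <;> norm_num
  have h : ∀ j : ℕ, D ∣ sq T ε j - ε ^ j * (2 * j + 1) ∧
      D ∣ sq T ε (j + 1) - ε ^ (j + 1) * (2 * ((j : ℤ) + 1) + 1) := by
    intro j
    induction j with
    | zero =>
      have s0 : sq T ε 0 = 1 := rfl
      have s1 : sq T ε (0 + 1) = T + ε := rfl
      rw [s0, s1]
      constructor
      · simp
      · have e : T + ε - ε ^ (0 + 1) * (2 * (((0 : ℕ) : ℤ) + 1) + 1) = T - 2 * ε := by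
          push_cast
          ring
        rw [e]
        exact hT
    | succ j ih =>
      obtain ⟨⟨a, ha⟩, b, hb⟩ := ih
      obtain ⟨c, hc⟩ := hT
      refine ⟨⟨b, by rw [← hb]; push_cast; ring⟩, ?_⟩
      have s : sq T ε (j + 1 + 1) = T * sq T ε (j + 1) - sq T ε j := rfl
      rw [s]
      have e1 : sq T ε (j + 1) = ε ^ (j + 1) * (2 * ((j : ℤ) + 1) + 1) + D * b := by
        linear_combination hb
      have e2 : sq T ε j = ε ^ j * (2 * j + 1) + D * a := by
        linear_combination ha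
      have e3 : T = 2 * ε + D * c := by
        linear_combination hc
      refine ⟨c * (ε ^ (j + 1) * (2 * ((j : ℤ) + 1) + 1) + D * b) + 2 * ε * b - a, ?_⟩
      rw [e1, e2, e3]
      push_cast
      have e4 : ε ^ (j + 1 + 1) = ε ^ j := by
        have : ε ^ (j + 1 + 1) = ε ^ j * ε ^ 2 := by ring
        rw [this, he2, mul_one]
      have e5 : ε * ε ^ (j + 1) = ε ^ j := by
        rw [← e4]
        ring
      rw [e4]
      linear_combination (2 * (2 * ((j : ℤ) + 1) + 1)) * e5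
  exact (h j).1

theorem jk_pe_pos (n : ℕ) (hn : 0 < n) : 0 < pe n := by
  have h : ∀ n, 0 < pe (n + 1) := by
    intro n
    induction n with
    | zero => show 0 < 1; norm_num
    | succ n ih =>
      show 0 < 2 * pe (n + 1) + pe n
      omega
  obtain ⟨k, rfl⟩ : ∃ k, n = k + 1 := ⟨n - 1, by omega⟩
  exact h k

theorem jk_ve_pos (n : ℕ) : 0 < ve n := by
  have h : ∀ n, 0 < ve n ∧ 0 < ve (n + 1) := by
    intro n
    induction n with
    | zero => exact ⟨by show 0 < 2; norm_num, by show 0 < 2; norm_num⟩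
    | succ n ih =>
      refine ⟨ih.2, ?_⟩
      show 0 < 2 * ve (n + 1) + ve n
      omega
  exact (h n).1

theorem jk_fin (D T ε R : ℤ) (hD : D ≠ 0) (hε : ε = 1 ∨ ε = -1) (hT : D ∣ T - 2 * ε) (j : ℕ)
    (hR : R = sq T ε j * D) : D ∣ R / D - ((2 * j + 1 : ℕ) : ℤ) ∨
      D ∣ R / D + ((2 * j + 1 : ℕ) : ℤ) := by
  have h1 : R / D = sq T ε j := by
    rw [hR, Int.mul_ediv_cancel _ hD]
  have h2 := sq_mod D T ε hε hT j
  have h3 : ε ^ j = 1 ∨ ε ^ j = -1 := by
    rcases hε with rfl | rfl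
    · left
      exact one_pow j
    · exact neg_one_pow_eq_or ℤ j
  rw [h1]
  rcases h3 with h3 | h3
  · left
    rw [h3, one_mul] at h2
    exact_mod_cast h2
  · right
    rw [h3] at h2
    have e : sq T ε j + ((2 * j + 1 : ℕ) : ℤ) = sq T ε j - -1 * (2 * (j : ℤ) + 1) := by
      push_cast
      ring
    rw [e]
    exact h2

theorem pf_JK (_hd : T_ADV) : T_JK := by
  intro c m k hm hk
  obtain ⟨j, rfl⟩ := hk
  obtain ⟨-, -, hab⟩ := jk_al_sq
  have h2 : (0 : ℝ) < 2 * Real.sqrt 2 := by positivity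
  have h22 : Real.sqrt 2 ^ 2 = 2 := Real.sq_sqrt (by norm_num)
  by_cases hc : c = 0
  · have eA : ∀ n, AA c n = pe n := fun n => by
      unfold AA
      rw [if_pos hc]
    rw [eA, eA]
    have hxy : al ^ m * be ^ m = -1 := by
      rw [← mul_pow, hab, hm.neg_one_pow]
    have hTr : (((ve (m * 2) : ℕ) : ℤ) : ℝ) = (al ^ m) ^ 2 + (be ^ m) ^ 2 := by
      have := (jk_bin (m * 2)).2
      rw [pow_mul, pow_mul] at this
      exact_mod_cast this
    refine jk_fin (pe m : ℤ) (ve (m * 2) : ℤ) (-1) (pe (m * (2 * j + 1)) : ℤ) ?_ (Or.inr rfl) ?_ j ?_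
    · have := jk_pe_pos m hm.pos
      exact_mod_cast this.ne'
    · refine ⟨8 * pe m, ?_⟩
      have h3 : (((ve (m * 2) : ℕ) : ℤ) : ℝ) - 2 * (-1) = pe m * (8 * pe m) := by
        rw [hTr]
        have h4 := (jk_bin m).1
        have h5 : (2 * Real.sqrt 2 * (pe m : ℝ)) ^ 2 = (al ^ m - be ^ m) ^ 2 := by rw [h4]
        rw [mul_pow, mul_pow, h22] at h5
        linear_combination (-1) * h5 + 2 * hxy
      exact_mod_cast h3
    · have h3 : (pe (m * (2 * j + 1)) : ℝ) =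
          (sq (ve (m * 2) : ℤ) (-1) j : ℝ) * (pe m : ℝ) := by
        refine mul_left_cancel₀ h2.ne' ?_
        rw [(jk_bin (m * (2 * j + 1))).1, pow_mul, pow_mul,
          sq_real (al ^ m) (be ^ m) (ve (m * 2) : ℤ) (-1) hTr (by rw [hxy]; norm_num)
            (by rw [hxy]; norm_num) j, ← (jk_bin m).1]
        ring
      exact_mod_cast h3
  · have eA : ∀ n, AA c n = ve (2 ^ (c - 1) * n) := fun n => by
      unfold AA
      rw [if_neg hc]
    rw [eA, eA, ← mul_assoc]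
    generalize 2 ^ (c - 1) * m = M
    obtain ⟨e, he, hxy⟩ : ∃ e : ℤ, (e = 1 ∨ e = -1) ∧ (e : ℝ) = al ^ M * be ^ M := by
      rcases neg_one_pow_eq_or ℝ M with h | h
      · exact ⟨1, Or.inl rfl, by rw [← mul_pow, hab, h]; norm_num⟩
      · exact ⟨-1, Or.inr rfl, by rw [← mul_pow, hab, h]; norm_num⟩
    have he2 : (e : ℝ) ^ 2 = 1 := by
      rcases he with rfl | rfl <;> norm_num
    have hTr : (((ve (M * 2) : ℕ) : ℤ) : ℝ) = (al ^ M) ^ 2 + (-be ^ M) ^ 2 := by
      have := (jk_bin (M * 2)).2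
      rw [pow_mul, pow_mul] at this
      rw [neg_sq]
      exact_mod_cast this
    refine jk_fin (ve M : ℤ) (ve (M * 2) : ℤ) (-e) (ve (M * (2 * j + 1)) : ℤ) ?_ ?_ ?_ j ?_
    · have := jk_ve_pos M
      exact_mod_cast this.ne'
    · rcases he with rfl | rfl
      · exact Or.inr rfl
      · left
        norm_num
    · refine ⟨ve M, ?_⟩
      have h3 : (((ve (M * 2) : ℕ) : ℤ) : ℝ) - 2 * (-(e : ℝ)) = (ve M : ℝ) * ve M := by
        rw [hTr, hxy, (jk_bin M).2]
        ring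
      exact_mod_cast h3
    · have h3 : (ve (M * (2 * j + 1)) : ℝ) =
          (sq (ve (M * 2) : ℤ) (-e) j : ℝ) * (ve M : ℝ) := by
        have h4 := sq_real (al ^ M) (-be ^ M) (ve (M * 2) : ℤ) (-e) hTr
          (by push_cast; rw [hxy]; ring) (by
            have : (al ^ M * -be ^ M) ^ 2 = (al ^ M * be ^ M) ^ 2 := by ring
            rw [this, ← hxy, he2]) j
        rw [(jk_bin (M * (2 * j + 1))).2, (jk_bin M).2, pow_mul, pow_mul]
        have h5 : (-be ^ M) ^ (2 * j + 1) = -(be ^ M) ^ (2 * j + 1) := (odd_two_mul_add_one j).neg_pow _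
        rw [h5] at h4
        linear_combination h4
      exact_mod_cast h3

end Pool.Agent.H68.PL
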