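import Pool.Agent.H28.PL.DefsK

/-!
# Residues modulo 4, indices `2 m` (row JL1 of plp_modules)
-/

set_option autoImplicit false

open Finset

namespace Pool.Agent.H68.PL

open Pool.Agent.H28.PL

theorem jl1_PD_one : PD 1 = 1 := by
  unfold PD
  rw [if_neg not_isPrimePow_one]

theorem pf_JL1 (hp : T_JP) (hr : T_JR1) (hpd : T_PPD) : T_JL1 := by
  intro L hL m
  obtain ⟨hB1, hB4, -, -⟩ := hr 1 odd_one
  simp only [one_mul] at hB1 hB4
  have hA1 : AA 1 1 ≠ 0 := by
    intro h0
    rw [h0] at hB1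
    simp at hB1
  have hL1 : L (2 ^ 1 * 1) = AA 1 1 := by
    have := hp L hL 1 1 odd_one
    simpa using this
  have key : ∀ m : ℕ, Odd m → 1 < m → L (2 ^ 1 * m) % 4 = PD m % 4 := by
    intro m
    induction m using Nat.strong_induction_on with
    | _ m ih =>
      intro hm hm1
      have hm0 : m ≠ 0 := by omega
      have h1 : m ∈ m.divisors := Nat.mem_divisors_self m hm0
      have h2 : 1 ∈ m.divisors.erase m := by
        rw [mem_erase]
        exact ⟨by omega, Nat.one_mem_divisors.2 hm0⟩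
      have hprod := hp L hL 1 m hm
      have hprod2 := hpd m (by omega)
      rw [← mul_prod_erase _ _ h1, ← mul_prod_erase _ _ h2, hL1] at hprod
      rw [← mul_prod_erase _ _ h1, ← mul_prod_erase _ _ h2, jl1_PD_one, one_mul] at hprod2
      obtain ⟨P, hP⟩ : ∃ P, P = ∏ d ∈ (m.divisors.erase m).erase 1, L (2 ^ 1 * d) := ⟨_, rfl⟩
      obtain ⟨Q, hQ⟩ : ∃ Q, Q = ∏ d ∈ (m.divisors.erase m).erase 1, PD d := ⟨_, rfl⟩
      rw [← hP] at hprod
      rw [← hQ] at hprod2
      have hPQ : P ≡ Q [MOD 4] := by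
        show P % 4 = Q % 4
        rw [hP, hQ, Finset.prod_nat_mod, Finset.prod_nat_mod _ _ PD]
        congr 1
        refine Finset.prod_congr rfl fun d hd => ?_
        rw [mem_erase, mem_erase, Nat.mem_divisors] at hd
        obtain ⟨hd1, hdm, hdv, -⟩ := hd
        have hd0 : 0 < d := Nat.pos_of_dvd_of_pos hdv (by omega)
        have hle := Nat.le_of_dvd (by omega) hdv
        exact ih d (by omega) (Odd.of_dvd_nat hm hdv) (by omega)
      have h3 : AA 1 m / AA 1 1 = L (2 ^ 1 * m) * P := by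
        rw [← hprod]
        have : L (2 ^ 1 * m) * (AA 1 1 * P) = AA 1 1 * (L (2 ^ 1 * m) * P) := by ring
        rw [this]
        exact Nat.mul_div_cancel_left _ (Nat.pos_of_ne_zero hA1)
      have h4 : L (2 ^ 1 * m) * P ≡ PD m * Q [MOD 4] := by
        show L (2 ^ 1 * m) * P % 4 = PD m * Q % 4
        rw [← h3, hB4 m hm, hprod2]
      have hQodd : Odd Q := by
        exact Odd.of_dvd_nat hm (Dvd.intro_left (PD m) hprod2)
      have h5 : L (2 ^ 1 * m) * Q ≡ PD m * Q [MOD 4] :=
        (Nat.ModEq.mul_left _ hPQ.symm).trans h4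
      have hcop : Nat.gcd 4 Q = 1 := by
        have h6 : Nat.Coprime (2 ^ 2) Q := Nat.Coprime.pow_left 2 (Nat.coprime_two_left.2 hQodd)
        exact h6
      exact Nat.ModEq.cancel_right_of_coprime hcop h5
  intro hm hm1
  have := key m hm hm1
  rwa [pow_one] at this

end Pool.Agent.H68.PL
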