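import Pool.Agent.H28.PL.Defs

/-!
# The cases `m = 7, 14` (row A714 of plp_modules)
-/

set_option autoImplicit false

open Finset

namespace Pool.Agent.H68.PL

open Pool.Agent.H28.PL

theorem pe_pos (n : ℕ) : 0 < pe (n + 1) := by
  have h : ∀ n, 0 < pe (n + 1) ∧ 0 ≤ pe n := by
    intro n
    induction n with
    | zero => exact ⟨by show 0 < 1; norm_num, Nat.zero_le _⟩
    | succ n ih =>
      refine ⟨?_, Nat.zero_le _⟩
      show 0 < 2 * pe (n + 1) + pe n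
      omega
  exact (h n).1

theorem ve_two_le (n : ℕ) : (2 ≤ ve n ∧ Even (ve n)) ∧ (2 ≤ ve (n + 1) ∧ Even (ve (n + 1))) := by
  induction n with
  | zero => exact ⟨⟨le_rfl, ⟨1, rfl⟩⟩, ⟨le_rfl, ⟨1, rfl⟩⟩⟩
  | succ n ih =>
    refine ⟨ih.2, ?_⟩
    have h : ve (n + 1 + 1) = 2 * ve (n + 1) + ve n := rfl
    rw [h]
    refine ⟨by have := ih.1.1; omega, ?_⟩
    exact (even_two_mul _).add ih.1.2

theorem ve_six (s : ℕ) (hs : 1 < s) : ∃ a : ℕ, 3 ≤ a ∧ ve s = 2 * a := by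
  obtain ⟨n, rfl⟩ : ∃ n, s = n + 2 := ⟨s - 2, by omega⟩
  have h : ve (n + 2) = 2 * ve (n + 1) + ve n := rfl
  have h1 := ve_two_le n
  obtain ⟨a, ha⟩ := (ve_two_le n).1.2
  refine ⟨ve (n + 1) + a, ?_, ?_⟩
  · have := h1.1.1
    have := h1.2.1
    omega
  · rw [h, ha]
    ring

theorem mu7 : ArithmeticFunction.moebius 7 = -1 :=
  ArithmeticFunction.moebius_apply_prime (by norm_num)

theorem mu2 : ArithmeticFunction.moebius 2 = -1 :=
  ArithmeticFunction.moebius_apply_prime (by norm_num)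

theorem mu14 : ArithmeticFunction.moebius 14 = 1 := by
  have h := ArithmeticFunction.isMultiplicative_moebius.map_mul_of_coprime
    (show Nat.Coprime 2 7 by norm_num)
  rw [mu2, mu7] at h
  exact h

theorem tt7 (hB : T_BIN) (s : ℕ) (hs : 0 < s) (v e : ℝ) (hv : v = al ^ s + be ^ s)
    (he : e = al ^ s * be ^ s) (he2 : e ^ 2 = 1) :
    TT 7 s = v ^ 6 - 5 * e * v ^ 4 + 6 * v ^ 2 - e := by
  have hd : Nat.divisors 7 = {1, 7} := by decide
  have hP : (0 : ℝ) < (pe s : ℝ) := by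
    obtain ⟨n, rfl⟩ : ∃ n, s = n + 1 := ⟨s - 1, by omega⟩
    exact_mod_cast pe_pos n
  have h2 : (0 : ℝ) < 2 * Real.sqrt 2 := by positivity
  have b1 := (hB s).1
  have b7 := (hB (s * 7)).1
  rw [pow_mul, pow_mul] at b7
  have h7 : (pe (s * 7) : ℝ) = pe s * (v ^ 6 - 5 * e * v ^ 4 + 6 * v ^ 2 - e) := by
    have h3 : 2 * Real.sqrt 2 * (pe (s * 7) : ℝ) =
        2 * Real.sqrt 2 * (pe s * (v ^ 6 - 5 * e * v ^ 4 + 6 * v ^ 2 - e)) := by
      have h4 : (v ^ 6 - 5 * e * v ^ 4 + 6 * v ^ 2 - e) =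
          (v ^ 6 - 5 * e * v ^ 4 + 6 * e ^ 2 * v ^ 2 - e ^ 2 * e) := by
        rw [he2]
        ring
      rw [h4, b7, ← mul_assoc, b1, hv, he]
      ring
    exact mul_left_cancel₀ h2.ne' h3
  unfold TT
  rw [hd, Finset.prod_pair (by norm_num)]
  have e1 : 7 / 1 = 7 := by norm_num
  have e2 : 7 / 7 = 1 := by norm_num
  rw [e1, e2, mu7, ArithmeticFunction.moebius_apply_one, zpow_neg, zpow_one, zpow_one, mul_one,
    h7]
  field_simp

theorem tt14 (hB : T_BIN) (s : ℕ) (hs : 0 < s) (v e : ℝ) (hv : v = al ^ s + be ^ s)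
    (he : e = al ^ s * be ^ s) (he2 : e ^ 2 = 1) (hv0 : v ≠ 0) :
    TT 14 s = v ^ 6 - 7 * e * v ^ 4 + 14 * v ^ 2 - 7 * e := by
  have hd : Nat.divisors 14 = {1, 2, 7, 14} := by decide
  have hP : (0 : ℝ) < (pe s : ℝ) := by
    obtain ⟨n, rfl⟩ : ∃ n, s = n + 1 := ⟨s - 1, by omega⟩
    exact_mod_cast pe_pos n
  have hP7 : (0 : ℝ) < (pe (s * 7) : ℝ) := by
    obtain ⟨n, hn⟩ : ∃ n, s * 7 = n + 1 := ⟨s * 7 - 1, by omega⟩
    rw [hn]
    exact_mod_cast pe_pos n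
  have h2 : (0 : ℝ) < 2 * Real.sqrt 2 := by positivity
  have b1 := (hB s).1
  have b2 := (hB (s * 2)).1
  have b7 := (hB (s * 7)).1
  have b14 := (hB (s * 14)).1
  rw [pow_mul, pow_mul] at b2 b7 b14
  have h3 : (pe (s * 2) : ℝ) = pe s * v := by
    refine mul_left_cancel₀ h2.ne' ?_
    rw [b2, ← mul_assoc, b1, hv]
    ring
  have h4 : (pe (s * 14) : ℝ) = pe (s * 7) * ((al ^ s) ^ 7 + (be ^ s) ^ 7) := by
    refine mul_left_cancel₀ h2.ne' ?_
    rw [b14, ← mul_assoc, b7]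
    ring
  have h5 : (al ^ s) ^ 7 + (be ^ s) ^ 7 = v * (v ^ 6 - 7 * e * v ^ 4 + 14 * v ^ 2 - 7 * e) := by
    have h6 : (v ^ 6 - 7 * e * v ^ 4 + 14 * v ^ 2 - 7 * e) =
        (v ^ 6 - 7 * e * v ^ 4 + 14 * e ^ 2 * v ^ 2 - 7 * (e ^ 2 * e)) := by
      rw [he2]
      ring
    rw [h6, hv, he]
    ring
  unfold TT
  rw [hd, Finset.prod_insert (by decide), Finset.prod_insert (by decide),
    Finset.prod_pair (by norm_num)]
  have e1 : 14 / 1 = 14 := by norm_num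
  have e2 : 14 / 2 = 7 := by norm_num
  have e3 : 14 / 7 = 2 := by norm_num
  have e4 : 14 / 14 = 1 := by norm_num
  rw [e1, e2, e3, e4, mu14, mu7, mu2, ArithmeticFunction.moebius_apply_one, zpow_neg, zpow_one,
    zpow_neg, zpow_one, zpow_one, mul_one, h3, h4, h5]
  rw [zpow_one]
  field_simp

theorem pf_A714 (hB : T_BIN) : T_A714 := by
  intro s z hs
  obtain ⟨a, ha3, hva⟩ := ve_six s hs
  obtain ⟨v, hv⟩ : ∃ v : ℝ, v = al ^ s + be ^ s := ⟨_, rfl⟩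
  obtain ⟨e, he⟩ : ∃ e : ℝ, e = al ^ s * be ^ s := ⟨_, rfl⟩
  have hve : v = 2 * (a : ℝ) := by
    rw [hv, ← (hB s).2, hva]
    push_cast
    ring
  have hab : al * be = -1 := by
    have h2 : Real.sqrt 2 ^ 2 = 2 := Real.sq_sqrt (by norm_num)
    unfold al be
    nlinarith
  have hes : e = (-1) ^ s := by
    rw [he, ← mul_pow, hab]
  have he2 : e ^ 2 = 1 := by
    rw [hes, ← pow_mul, mul_comm, pow_mul]
    norm_num
  obtain ⟨f, hf, hfe⟩ : ∃ f : ℤ, (f = 1 ∨ f = -1) ∧ e = (f : ℝ) := by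
    have h0 : (e - 1) * (e + 1) = 0 := by linear_combination he2
    rcases mul_eq_zero.1 h0 with h | h
    · exact ⟨1, Or.inl rfl, by push_cast; linarith⟩
    · exact ⟨-1, Or.inr rfl, by push_cast; linarith⟩
  have hz0 : (0 : ℤ) ≤ (z : ℤ) := Int.natCast_nonneg z
  have haZ : (3 : ℤ) ≤ (a : ℤ) := by exact_mod_cast ha3
  have hv0 : v ≠ 0 := by
    rw [hve]
    have : (3 : ℝ) ≤ (a : ℝ) := by exact_mod_cast ha3
    positivity
  constructor
  · intro h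
    rw [tt7 hB s (by omega) v e hv he he2, hve, hfe] at h
    have h1 : (2 * (a : ℤ)) ^ 6 - 5 * f * (2 * (a : ℤ)) ^ 4 + 6 * (2 * (a : ℤ)) ^ 2 - f =
        (z : ℤ) ^ 2 := by exact_mod_cast h
    generalize (z : ℤ) = y at h1 hz0
    generalize (a : ℤ) = A at h1 haZ
    have hA3 : 9 * A ≤ A ^ 3 := by nlinarith [mul_nonneg (by linarith : (0 : ℤ) ≤ A - 3) (by positivity : (0 : ℤ) ≤ A ^ 2), mul_nonneg (by linarith : (0 : ℤ) ≤ A - 3) (by linarith : (0 : ℤ) ≤ A)]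
    have hA2 : A ^ 2 ≤ A ^ 3 := by nlinarith [mul_nonneg (by linarith : (0 : ℤ) ≤ A - 1) (by positivity : (0 : ℤ) ≤ A ^ 2)]
    have hA9 : 9 ≤ A ^ 2 := by nlinarith
    rcases hf with rfl | rfl
    · have e1 : y ^ 2 = (8 * A ^ 3 - 5 * A) ^ 2 - (A ^ 2 + 1) := by rw [← h1]; ring
      have h2 : y < 8 * A ^ 3 - 5 * A := lt_of_pow_lt_pow_left₀ 2 (by nlinarith) (by linarith)
      have h3 : 8 * A ^ 3 - 5 * A - 1 < y := by
        refine lt_of_pow_lt_pow_left₀ 2 hz0 ?_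
        rw [e1]
        nlinarith
      omega
    · have e1 : y ^ 2 = (8 * A ^ 3 + 5 * A) ^ 2 - (A ^ 2 - 1) := by rw [← h1]; ring
      have h2 : y < 8 * A ^ 3 + 5 * A := lt_of_pow_lt_pow_left₀ 2 (by nlinarith) (by linarith)
      have h3 : 8 * A ^ 3 + 5 * A - 1 < y := by
        refine lt_of_pow_lt_pow_left₀ 2 hz0 ?_
        rw [e1]
        nlinarith
      omega
  · intro h
    rw [tt14 hB s (by omega) v e hv he he2 hv0, hve, hfe] at h
    have h1 : (2 * (a : ℤ)) ^ 6 - 7 * f * (2 * (a : ℤ)) ^ 4 + 14 * (2 * (a : ℤ)) ^ 2 - 7 * f =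
        (z : ℤ) ^ 2 := by exact_mod_cast h
    generalize (z : ℤ) = y at h1 hz0
    generalize (a : ℤ) = A at h1 haZ
    have hA3 : 9 * A ≤ A ^ 3 := by nlinarith [mul_nonneg (by linarith : (0 : ℤ) ≤ A - 3) (by positivity : (0 : ℤ) ≤ A ^ 2), mul_nonneg (by linarith : (0 : ℤ) ≤ A - 3) (by linarith : (0 : ℤ) ≤ A)]
    have hA2 : 3 * A ^ 2 ≤ A ^ 3 := by nlinarith [mul_nonneg (by linarith : (0 : ℤ) ≤ A - 3) (by positivity : (0 : ℤ) ≤ A ^ 2)]
    have hA9 : 9 ≤ A ^ 2 := by nlinarith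
    rcases hf with rfl | rfl
    · have e1 : y ^ 2 = (8 * A ^ 3 - 7 * A) ^ 2 + (7 * A ^ 2 - 7) := by rw [← h1]; ring
      have h2 : 8 * A ^ 3 - 7 * A < y := lt_of_pow_lt_pow_left₀ 2 hz0 (by linarith)
      have h3 : y < 8 * A ^ 3 - 7 * A + 1 := by
        refine lt_of_pow_lt_pow_left₀ 2 (by linarith) ?_
        rw [e1]
        nlinarith
      omega
    · have e1 : y ^ 2 = (8 * A ^ 3 + 7 * A) ^ 2 + (7 * A ^ 2 + 7) := by rw [← h1]; ring
      have h2 : 8 * A ^ 3 + 7 * A < y := lt_of_pow_lt_pow_left₀ 2 hz0 (by linarith)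
      have h3 : y < 8 * A ^ 3 + 7 * A + 1 := by
        refine lt_of_pow_lt_pow_left₀ 2 (by linarith) ?_
        rw [e1]
        nlinarith
      omega

end Pool.Agent.H68.PL
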