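import Pool.Agent.H28.PL.Defs

/-!
# The square root of `TT m s` as a power series (row SQR of plp_modules)
-/

set_option autoImplicit false

open Finset

namespace Pool.Agent.H68.PL

open Pool.Agent.H28.PL

theorem abs_ratio : |be / al| ≤ 1 / 2 := by
  have h0 : (0 : ℝ) ≤ Real.sqrt 2 := Real.sqrt_nonneg 2
  have h2 : Real.sqrt 2 ^ 2 = 2 := Real.sq_sqrt (by norm_num)
  have h3 : Real.sqrt 2 ≤ 3 / 2 := by nlinarith
  have h4 : 1 ≤ Real.sqrt 2 := by nlinarith
  unfold be al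
  rw [abs_div, abs_of_nonpos (by linarith), abs_of_pos (by linarith),
    div_le_iff₀ (by linarith)]
  linarith

theorem abs_tt (s : ℕ) (hs : 0 < s) : |(be / al) ^ s| ≤ 1 / 2 := by
  rw [abs_pow]
  calc |be / al| ^ s ≤ |be / al| ^ 1 :=
        pow_le_pow_of_le_one (abs_nonneg _) (abs_ratio.trans (by norm_num)) hs
    _ ≤ 1 / 2 := by rw [pow_one]; exact abs_ratio

theorem one_sub_pos {t : ℝ} (ht : |t| ≤ 1 / 2) {d : ℕ} (hd : 0 < d) : 0 < 1 - t ^ d := by
  have h1 : |t ^ d| ≤ 1 / 2 := by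
    rw [abs_pow]
    calc |t| ^ d ≤ |t| ^ 1 := pow_le_pow_of_le_one (abs_nonneg _) (ht.trans (by norm_num)) hd
      _ ≤ 1 / 2 := by rw [pow_one]; exact ht
  have h2 := le_abs_self (t ^ d)
  linarith

theorem rt_pos (τ : Bool) {x : ℝ} (hx : 0 < x) : 0 < rt τ x := by
  unfold rt
  split_ifs
  · exact Real.sqrt_pos.2 hx
  · exact inv_pos.2 (Real.sqrt_pos.2 hx)

theorem sum_half (n : ℕ) : ∑ d ∈ range n, (1 / 2 : ℝ) ^ (d + 1) ≤ 1 := by
  have h : ∑ d ∈ range n, (1 / 2 : ℝ) ^ (d + 1) = 1 - (1 / 2) ^ n := by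
    induction n with
    | zero => simp
    | succ n ih =>
      rw [Finset.sum_range_succ, ih, pow_succ]
      ring
  rw [h]
  have : (0 : ℝ) ≤ (1 / 2) ^ n := by positivity
  linarith

theorem prod_le_three (m : ℕ) : ∏ d ∈ m.divisors, (1 + (1 / 2 : ℝ) ^ d) ≤ 3 := by
  have h1 : ∏ d ∈ m.divisors, (1 + (1 / 2 : ℝ) ^ d) ≤
      Real.exp (∑ d ∈ m.divisors, (1 / 2 : ℝ) ^ d) := by
    rw [Real.exp_sum]
    refine Finset.prod_le_prod (fun d _ => by positivity) fun d _ => ?_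
    have := Real.add_one_le_exp ((1 / 2 : ℝ) ^ d)
    linarith
  have h2 : ∑ d ∈ m.divisors, (1 / 2 : ℝ) ^ d ≤ 1 := by
    refine le_trans ?_ (sum_half m)
    have h3 : ∑ d ∈ range m, (1 / 2 : ℝ) ^ (d + 1) = ∑ d ∈ Ico 1 (m + 1), (1 / 2 : ℝ) ^ d := by
      rw [Finset.sum_Ico_eq_sum_range]
      refine Finset.sum_congr (by simp) fun d _ => ?_
      rw [add_comm]
    rw [h3]
    refine Finset.sum_le_sum_of_subset_of_nonneg ?_ fun _ _ _ => by positivity
    intro d hd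
    rw [Finset.mem_Ico]
    have h4 := Nat.pos_of_mem_divisors hd
    have h5 := Nat.divisor_le hd
    omega
  have h3 : Real.exp 1 ≤ 3 := by
    have := Real.exp_one_lt_d9
    linarith
  exact h1.trans ((Real.exp_le_exp.2 h2).trans h3)

theorem pf_SQR (ht : T_TFO) (hs : T_HSS) (hp : T_PRO) (hv : T_VAL) (hc : T_CON) : T_SQR := by
  intro m s hm hm2 hs0
  set t : ℝ := (be / al) ^ s with htd
  have htt : |t| ≤ 1 / 2 := abs_tt s hs0
  let τ : ℕ → Bool := fun d => decide (ArithmeticFunction.moebius (m / d) = 1)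
  set S : Finset ℕ := m.divisors.erase 1 with hS
  have h1m : 1 ∈ m.divisors := Nat.one_mem_divisors.2 (by omega)
  have hS2 : ∀ d ∈ S, 2 ≤ d := by
    intro d hd
    have h1 := Finset.mem_erase.1 hd
    have h2 := Nat.pos_of_mem_divisors h1.2
    have h3 := h1.1
    omega
  obtain ⟨E, hE1, hE2⟩ := hp S τ t hS2 htt
  have hone := hs (τ 1) 1 t one_pos htt
  have hA : (0 : ℝ) ≤ 1 + (1 / 2) ^ 1 := by positivity
  have hB : (0 : ℝ) ≤ ∏ d ∈ S, (1 + (1 / 2 : ℝ) ^ d) := Finset.prod_nonneg fun _ _ => by positivity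
  have hcon := hc _ _ _ _ _ _ _ htt hA hB hone hE2
  have hF : rt (τ 1) (1 - t ^ 1) * ∏ d ∈ S, rt (τ d) (1 - t ^ d) =
      ∏ d ∈ m.divisors, rt (τ d) (1 - t ^ d) :=
    Finset.mul_prod_erase _ (fun d => rt (τ d) (1 - t ^ d)) h1m
  have hN : (1 + (1 / 2 : ℝ) ^ 1) * ∏ d ∈ S, (1 + (1 / 2 : ℝ) ^ d) =
      ∏ d ∈ m.divisors, (1 + (1 / 2 : ℝ) ^ d) :=
    Finset.mul_prod_erase _ (fun d => 1 + (1 / 2 : ℝ) ^ d) h1m
  rw [hF, hN] at hcon
  have hFpos : 0 < ∏ d ∈ m.divisors, rt (τ d) (1 - t ^ d) :=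
    Finset.prod_pos fun d hd => rt_pos _ (one_sub_pos htt (Nat.pos_of_mem_divisors hd))
  refine ⟨_, ∏ d ∈ m.divisors, rt (τ d) (1 - t ^ d), ?_, ⟨hcon.1, hcon.2.1, hcon.2.2.1,
    hcon.2.2.2.trans (prod_le_three m)⟩, hFpos, ?_⟩
  · intro j
    obtain ⟨c, hc1, hc2⟩ := hv (τ 1) E hE2.1 hE1 j
    refine ⟨c, hc1, ?_⟩
    rw [← hc2]
    refine Finset.sum_congr rfl fun p _ => ?_
    have h1 : Pool.Agent.H28.PL.hs (τ 1) 1 p.1 = ca (τ 1) p.1 := by
      unfold Pool.Agent.H28.PL.hs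
      rw [if_pos (one_dvd _), Nat.div_one, Nat.sub_self, pow_zero, mul_one]
    rw [h1]
  · have hsq : (∏ d ∈ m.divisors, rt (τ d) (1 - t ^ d)) ^ 2 =
        ∏ d ∈ m.divisors, (1 - t ^ d) ^ (ArithmeticFunction.moebius (m / d) : ℤ) := by
      rw [← Finset.prod_pow]
      refine Finset.prod_congr rfl fun d hd => ?_
      have hx := one_sub_pos htt (Nat.pos_of_mem_divisors hd)
      have hsf : Squarefree (m / d) :=
        hm.squarefree_of_dvd (Nat.div_dvd_of_dvd (Nat.dvd_of_mem_divisors hd))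
      have hmu := ArithmeticFunction.moebius_ne_zero_iff_eq_or.1
        (ArithmeticFunction.moebius_ne_zero_iff_squarefree.2 hsf)
      rcases hmu with h1 | h1
      · have h2 : τ d = true := by
          show decide (ArithmeticFunction.moebius (m / d) = 1) = true
          rw [decide_eq_true_eq]
          exact h1
        rw [h2, h1]
        unfold rt
        rw [if_pos rfl, Real.sq_sqrt hx.le, zpow_one]
      · have h2 : τ d = false := by
          show decide (ArithmeticFunction.moebius (m / d) = 1) = false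
          rw [decide_eq_false_iff_not, h1]
          norm_num
        rw [h2, h1]
        unfold rt
        rw [if_neg (by simp), inv_pow, Real.sq_sqrt hx.le, zpow_neg, zpow_one]
    have hal : 0 < al := by
      unfold al
      have : (0 : ℝ) ≤ Real.sqrt 2 := Real.sqrt_nonneg 2
      linarith
    have hTT := ht m s hm (by omega) hs0
    rw [← htd, ← hsq] at hTT
    obtain ⟨k, hk⟩ := Nat.totient_even hm2
    have hk2 : Nat.totient m / 2 = k := by omega
    rw [hk2]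
    have e1 : TT m s = ((al ^ s) ^ k * ∏ d ∈ m.divisors, rt (τ d) (1 - t ^ d)) ^ 2 := by
      rw [hTT, hk, pow_add, mul_pow]
      ring
    rw [e1, Real.sqrt_sq (by positivity)]

end Pool.Agent.H68.PL
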